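import Mathlib
import Pool.Agent.Helper95.FZ.Main

set_option autoImplicit false
open MeasureTheory Real Set Filter Topology
open Pool.Agent.Helper95.FZ

namespace Pool.Agent.Results.MP_9ee088_an.FrozenNoise

/-- Standard maps with a small frozen random term of class `C^(2+s)` in the generating function: for every large
parameter with probability at least `1 - |a| ^ (-c)`, and for almost every realization (the same for all
parameters) and all parameters in a set of density one, the map has one weakly mixing component of measure at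
least `1 - |a| ^ (-c)`, with Lyapunov exponent `log (π |a|)` up to `|a| ^ (-c)`. The size of the random term may
be as small as `exp (- |a| ^ c)`. -/
theorem result (s : ℝ) (hs : 0 < s) (hs1 : s < 1) (χ : ℝ → ℝ) (hχ : ContDiff ℝ 3 χ)
    (hχ1 : ∀ t, |t| ≤ 1 / 2 → χ t = 1) (hχ0 : ∀ t, 1 ≤ |t| → χ t = 0) :
    ∃ c A C : ℝ, 0 < c ∧
      (∀ᵐ ω ∂law, Small s C (noise χ s ω)) ∧
      (∀ (a κ : ℝ) (G : ℝ × ℝ → ℝ), A ≤ |a| → Real.exp (-|a| ^ c) ≤ κ → κ ≤ |a| ^ (-2 : ℝ) →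
        Small s (|a| ^ (-2 : ℝ)) G →
        law {ω | ¬ Good c a (fun q => G q + κ * noise χ s ω q)} ≤ ENNReal.ofReal (|a| ^ (-c))) ∧
      (∀ (κ : ℝ → ℝ) (G : ℝ → ℝ × ℝ → ℝ), Measurable κ →
        (Measurable fun r : ℝ × (ℝ × ℝ) => G r.1 r.2) →
        (∀ a, A ≤ |a| → Real.exp (-|a| ^ c) ≤ κ a ∧ κ a ≤ |a| ^ (-2 : ℝ) ∧
          Small s (|a| ^ (-2 : ℝ)) (G a)) →
        ∀ᵐ ω ∂law, ∃ Λ : Set ℝ, MeasurableSet Λ ∧
          (∃ R₀ : ℝ, ∀ R : ℝ, R₀ ≤ R → volume (Icc (-R) R \ Λ) ≤ ENNReal.ofReal (R ^ (1 - c))) ∧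
          ∀ a ∈ Λ, Good c a (fun q => G a q + κ a * noise χ s ω q)) :=
  main s hs hs1 χ hχ hχ1 hχ0

end Pool.Agent.Results.MP_9ee088_an.FrozenNoise
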