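import Mathlib
import Pool.Agent.Helper18.UY.Fin

set_option autoImplicit false
open MeasureTheory Real Set Filter Topology

namespace Pool.Agent.Results.MP_9ee088_an.LogLogComponent

/-- All Lyapunov exponents above `6 log log |a|` of the standard map `S_a` with large `|a|` live in
one weakly mixing component `Ω`; and if exponents `≥ (1 - σ) log |a|`, `σ ≤ 1/2`, occur on a set of
positive measure, then `Ω` has measure at least `1 - (σ / (1 - σ)) ^ 2 - δ`. -/
theorem result : ∀ δ : ℝ, 0 < δ → ∃ A : ℝ, ∀ a : ℝ, A ≤ |a| →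
    ∀ S : UnitAddCircle × UnitAddCircle → UnitAddCircle × UnitAddCircle,
    (∀ x y : ℝ, S ((x : UnitAddCircle), (y : UnitAddCircle)) =
      (((2 * x - y + a * Real.sin (2 * π * x) : ℝ) : UnitAddCircle), (x : UnitAddCircle))) →
    ∃ lam : UnitAddCircle × UnitAddCircle → ℝ, Measurable lam ∧
      (∀ᵐ p : ℝ × ℝ, Tendsto (fun n : ℕ => Real.log
          ‖fderiv ℝ ((fun q : ℝ × ℝ => (2 * q.1 - q.2 + a * Real.sin (2 * π * q.1), q.1))^[n]) p‖
            / n) atTop (𝓝 (lam ((p.1 : UnitAddCircle), (p.2 : UnitAddCircle))))) ∧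
      (∃ L0 : ℝ, ∀ᵐ z, 6 * Real.log (Real.log |a|) < lam z → lam z = L0) ∧
      (∀ (ξ : ℂ) (h : UnitAddCircle × UnitAddCircle → ℂ), Measurable h →
        (∀ᵐ z, 6 * Real.log (Real.log |a|) < lam z → h (S z) = ξ * h z) →
        ∃ w : ℂ, ∀ᵐ z, 6 * Real.log (Real.log |a|) < lam z → h z = w) ∧
      (∀ σ : ℝ, 0 ≤ σ → σ ≤ 1 / 2 → volume {z | (1 - σ) * Real.log |a| ≤ lam z} ≠ 0 →
        1 - (σ / (1 - σ)) ^ 2 - δ ≤
          volume.real {z | 6 * Real.log (Real.log |a|) < lam z}) :=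
  Pool.Agent.Helper18.UY.main

end Pool.Agent.Results.MP_9ee088_an.LogLogComponent
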